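import Pool.Agent.Y842.JC.Nat
import Pool.Agent.TH823.MRS.Circ5

/-!
# The Möbius function along shifted primes for almost all shifts in windows of length `C log N`

The theorem of helper842's library (`Pool.Agent.Y842.JC.mainN`), which treats any function with small exponential
sums in almost all short intervals, is applied to the Möbius function; the latter estimate (Matomäki, Radziwiłł
and Tao) is from the starting files (`Pool.Agent.TH823.MRS.mu_E`).
-/

set_option autoImplicit false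

namespace Pool.Agent.Results.MP_0bfb7f_nt.AlmostAllShifts

open Finset

/-- For every `ε > 0` there are `C` and `N₀` such that for all `N ≥ N₀`, `C log N ≤ H ≤ N`, `a ≤ H`, `B ≤ N` and every weight
`b` of modulus at most one, all but at most `ε H` of the shifts `B < h ≤ B + H` satisfy
`|∑ n ≤ X, b n * Λ (n + a) * μ (n + h)| ≤ ε N` for all `X ≤ N`. -/
theorem result (ε : ℝ) (hε : 0 < ε) :
    ∃ C : ℝ, ∃ N₀ : ℕ, ∀ N H : ℕ, N₀ ≤ N → C * Real.log N ≤ H → H ≤ N →
      ∀ a B : ℕ, a ≤ H → B ≤ N → ∀ b : ℕ → ℂ, (∀ n, ‖b n‖ ≤ 1) →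
      ({h : ℕ | B < h ∧ h ≤ B + H ∧ ∃ X : ℕ, X ≤ N ∧
        ε * N < ‖∑ n ∈ Icc 1 X, b n * (ArithmeticFunction.vonMangoldt (n + a) : ℂ) *
          ((ArithmeticFunction.moebius (n + h) : ℤ) : ℂ)‖}.ncard : ℝ) ≤ ε * H := by
  classical
  obtain ⟨C, N₀, h0⟩ := Pool.Agent.Y842.JC.mainN (fun n => ((ArithmeticFunction.moebius n : ℤ) : ℂ))
    Pool.Agent.TH823.MRS.mu_le Pool.Agent.TH823.MRS.mu_E 1 0 le_rfl 0 ε hε
  refine ⟨C, N₀, fun N H hN hCH hHN a B ha hB b hb => ?_⟩
  have h1 := h0 N hN H (by rw [pow_one]; exact hCH) hHN (fun _ => a) (Function.injective_of_subsingleton _)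
    (fun _ => ha) (fun _ _ => by omega) B hB (fun _ => b) (fun _ n => hb n)
  rw [zero_add, pow_one] at h1
  refine le_trans ?_ h1
  have h2 : ({h : ℕ | B < h ∧ h ≤ B + H ∧ ∃ X : ℕ, X ≤ N ∧
        ε * N < ‖∑ n ∈ Icc 1 X, b n * (ArithmeticFunction.vonMangoldt (n + a) : ℂ) *
          ((ArithmeticFunction.moebius (n + h) : ℤ) : ℂ)‖}).ncard =
      (((Ioc B (B + H)).filter (fun h : ℕ => ∃ X : ℕ, X ≤ N ∧
        ε * N < ‖∑ n ∈ Icc 1 X, b n * (ArithmeticFunction.vonMangoldt (n + a) : ℂ) *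
          ((ArithmeticFunction.moebius (n + h) : ℤ) : ℂ)‖)).card) := by
    rw [← Set.ncard_coe_finset]
    congr 1
    ext h
    simp only [Set.mem_setOf_eq, coe_filter, mem_Ioc, and_assoc]
  rw [h2]
  apply Nat.cast_le.2
  apply card_le_card_of_injOn (fun h : ℕ => ((fun i : Fin 0 => i.elim0 : Fin 0 → ℕ), h - B))
  · intro h hh
    rw [mem_coe, mem_filter, mem_Ioc] at hh
    obtain ⟨⟨hh1, hh2⟩, X, hXN, hX⟩ := hh
    rw [mem_coe, mem_filter, mem_product, Fintype.mem_piFinset]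
    refine ⟨⟨fun j => j.elim0, mem_Icc.2 (by simp only; omega)⟩, X, hXN, ?_⟩
    refine lt_of_lt_of_eq hX ?_
    congr 1
    apply sum_congr rfl
    intro n _
    have e1 : n + (h - B) + B = n + h := by omega
    simp only [Fin.prod_univ_zero, Fin.prod_univ_one, mul_one, e1, mul_assoc, Fin.isValue]
  · intro x hx y hy hxy
    simp only [Prod.mk.injEq, true_and] at hxy
    rw [mem_coe, mem_filter, mem_Ioc] at hx hy
    omega

end Pool.Agent.Results.MP_0bfb7f_nt.AlmostAllShifts
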