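import Pool.Agent.Y885.MU6

/-!
# Correlations of the Möbius function with shifted primes, up to very few elements of an arbitrary set which
meets every interval `[x, l x]`
-/

set_option autoImplicit false

namespace Pool.Agent.Results.MP_0bfb7f_nt.ElementsOfAnySet

open Finset

open Classical in
/-- The sum of `Λ(n) μ(n + a)` over the `n ≤ X` which belong to the set `E`. -/
noncomputable def corr (E : Set ℕ) (a X : ℕ) : ℝ :=
  ∑ n ∈ (Icc 1 X).filter (fun n => n ∈ E),
    ArithmeticFunction.vonMangoldt n * ((ArithmeticFunction.moebius (n + a) : ℤ) : ℝ)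

/-- For all `l ≥ 2`, `κ` and `U` there is a constant `C` such that for all `H` and `B` there is an `N₀` with the
following property. Let `A` be an arbitrary set of integers which contains an element of every interval
`[x, l x]`, `x ≥ 1` (the constants `C` and `N₀` do not depend on `A`). Let `N ≥ N₀`, let `0 ≤ h ≤ B N` be an
arbitrary integer, and let `E i`, where `i` ranges over at most `log ^ κ N` indices, be arbitrary sets of integers
(for example all the residue classes to moduli at most `log ^ (κ / 2) N`). Then there is a set `S` of at most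
`C (log log N) ^ 2` elements of `A`, all between `log ^ H N` and `N / log ^ H N`, such that the sum `a` of `h` and of
the elements of `S` satisfies `|∑ n ≤ X, n ∈ E i, Λ(n) μ(n + a)| ≤ N / log ^ U N` for all `i` and all `X ≤ B N`. -/
theorem result (l κ U : ℕ) (hl : 2 ≤ l) : ∃ C : ℝ, ∀ H B : ℕ, ∃ N₀ : ℕ,
    ∀ A : Set ℕ, (∀ x : ℕ, 1 ≤ x → ∃ a ∈ A, x ≤ a ∧ a ≤ l * x) → ∀ N : ℕ, N₀ ≤ N → ∀ h : ℕ, h ≤ B * N →
    ∀ L : ℕ, (L : ℝ) ≤ Real.log N ^ κ → ∀ E : Fin L → Set ℕ,
    ∃ S : Finset ℕ, (∀ a ∈ S, a ∈ A ∧ Real.log N ^ H ≤ a ∧ (a : ℝ) ≤ N / Real.log N ^ H) ∧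
      (S.card : ℝ) ≤ C * Real.log (Real.log N) ^ 2 ∧
      ∀ i, ∀ X : ℕ, X ≤ B * N → |corr (E i) (h + ∑ a ∈ S, a) X| ≤ N / Real.log N ^ U := by
  classical
  obtain ⟨C, hC⟩ := Pool.Agent.Y885.las_fine l 1 (κ + 2) U hl le_rfl Pool.Agent.H373R2.T7.muR Pool.Agent.Y885.fine_mu
  refine ⟨C, fun H B => ?_⟩
  obtain ⟨N₀, h0⟩ := hC H B
  refine ⟨N₀ + B + 8, fun A hA N hN h hh L hL E => ?_⟩
  have hN8 : (8 : ℝ) ≤ N := by exact_mod_cast (by omega : 8 ≤ N)
  have hlog2 : 2 ≤ Real.log (N : ℝ) := by
    rw [Real.le_log_iff_exp_le (by linarith)]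
    have h1 := Real.exp_one_lt_d9
    have h2 : Real.exp 2 = Real.exp 1 * Real.exp 1 := by rw [← Real.exp_add]; norm_num
    rw [h2]
    nlinarith [Real.exp_pos 1]
  obtain ⟨S, h1, h2, _, h3⟩ := h0 A hA N (by omega) h hh L
    (hL.trans (pow_le_pow_right₀ (by linarith) (by omega))) (fun _ => 1)
    (fun i n => if n ∈ E i then ((ArithmeticFunction.vonMangoldt n : ℝ) : ℂ) else 0) (fun _ => le_rfl) (by
      intro i n hn hn2
      rw [one_mul] at hn2
      have g1 : ArithmeticFunction.vonMangoldt n ≤ Real.log N ^ (κ + 2) := by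
        refine ArithmeticFunction.vonMangoldt_le_log.trans ?_
        have g2 : Real.log (n : ℝ) ≤ Real.log ((N : ℝ) * N) := by
          apply Real.log_le_log (by exact_mod_cast hn)
          have : n ≤ N * N := hn2.trans (Nat.mul_le_mul_right _ (by omega))
          exact_mod_cast this
        rw [Real.log_mul (by linarith) (by linarith)] at g2
        have g3 : Real.log (N : ℝ) ^ 2 ≤ Real.log N ^ (κ + 2) := pow_le_pow_right₀ (by linarith) (by omega)
        nlinarith
      split_ifs
      · rw [Complex.norm_real, Real.norm_eq_abs, abs_of_nonneg ArithmeticFunction.vonMangoldt_nonneg]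
        exact g1
      · rw [norm_zero]
        positivity)
  refine ⟨S, h1, h2, fun i X hX => ?_⟩
  have h4 := h3 i X (by rw [one_mul]; exact hX)
  refine le_trans (le_of_eq ?_) h4
  rw [← Real.norm_eq_abs, ← Complex.norm_real]
  congr 1
  unfold corr
  rw [sum_filter]
  push_cast
  apply sum_congr rfl
  intro n _
  split_ifs
  · rw [one_mul]
    push_cast
    rfl
  · simp

end Pool.Agent.Results.MP_0bfb7f_nt.ElementsOfAnySet
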