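import Pool.Agent.Y885.MU6

/-!
# Correlations of the Möbius function with shifted primes: the shift is a random sum with up to two fifths of the
scales missing
-/

set_option autoImplicit false

namespace Pool.Agent.Results.MP_0bfb7f_nt.RandomSumShifts

open Finset

open Classical in
/-- The sum of `Λ(n) μ(n + a)` over the `n ≤ X` which belong to the set `E`, where `μ(m) = 0` for `m ≤ 0`. -/
noncomputable def corr (E : Set ℕ) (a : ℤ) (X : ℕ) : ℝ :=
  ∑ n ∈ (Icc 1 X).filter (fun n => n ∈ E),
    ArithmeticFunction.vonMangoldt n * ((ArithmeticFunction.moebius (n + a).toNat : ℤ) : ℝ)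

/-- The set `J` of scales below `k` is rich: it contains more than three fifths of all the scales, more than one half
of the `m` lowest scales, and a positive proportion of the `m` highest scales (the last two conditions are
void for `m ≤ D log k`). -/
structure Rich (δ : ℝ) (D k : ℕ) (J : Finset ℕ) : Prop where
  lt : ∀ j ∈ J, j < k
  all : (3 / 5 + δ) * k ≤ (J.card : ℝ)
  low : ∀ m ≤ k, (1 / 2 + δ) * m ≤ ((J.filter fun j => j < m).card : ℝ) + D * Real.log k
  high : ∀ m ≤ k, δ * m ≤ ((J.filter fun j => k - m ≤ j).card : ℝ) + D * Real.log k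

open Classical in
/-- The probability of the event `Ev` if `x 0, ..., x (k - 1)` are independent random integers, where `x j` takes
its values in the finite set `s j`, and the value `v` with the probability `p j v`. -/
noncomputable def Prob (k : ℕ) (s : ℕ → Finset ℤ) (p : ℕ → ℤ → ℝ) (Ev : (Fin k → ℤ) → Prop) : ℝ :=
  ∑ x ∈ Fintype.piFinset (fun j : Fin k => s j), if Ev x then ∏ j : Fin k, p j (x j) else 0

/-- Let `b ≥ 2`, `B ≥ 1`, `D`, `κ`, `U`, `η > 0` and `δ > 0` be fixed, let `k` be large, and let `J` be an arbitrary rich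
set of scales below `k`. Let `x 0, ..., x (k - 1)` be arbitrary independent random integers with `|x j| ≤ B b ^ j`
such that, for all `j` in `J`, no interval of the length `b ^ j / B` contains `x j` with a probability larger than
`1 - η` (nothing is assumed for the other `j`: these `x j` may be constants). Let `c` be an arbitrary integer with
`|c| ≤ B b ^ k`, and let `E l`, where `l` ranges over at most `k ^ κ` indices, be arbitrary sets of integers. Then,
with a probability of at least `1 - 1 / k ^ U`, the shift `a = c + x 0 + ... + x (k - 1)` satisfies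
`|∑ n ≤ X, n ∈ E l, Λ(n) μ(n + a)| ≤ b ^ k / k ^ U` for all `l` and all `X ≤ B b ^ k`. -/
theorem result (b B D κ U : ℕ) (hb : 2 ≤ b) (hB : 1 ≤ B) (η δ : ℝ) (hη : 0 < η) (hδ : 0 < δ) :
    ∃ k₀ : ℕ, ∀ k : ℕ, k₀ ≤ k → ∀ J : Finset ℕ, Rich δ D k J →
      ∀ (s : ℕ → Finset ℤ) (p : ℕ → ℤ → ℝ),
      (∀ j < k, (∀ x ∈ s j, 0 ≤ p j x ∧ |x| ≤ (B : ℤ) * (b : ℤ) ^ j) ∧ ∑ x ∈ s j, p j x = 1) →
      (∀ j ∈ J, ∀ y : ℤ, ∑ x ∈ (s j).filter (fun x => y ≤ x ∧ (B : ℤ) * (x - y) ≤ (b : ℤ) ^ j), p j x ≤ 1 - η) →
      ∀ c : ℤ, |c| ≤ (B : ℤ) * (b : ℤ) ^ k →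
      ∀ L : ℕ, L ≤ k ^ κ → ∀ E : Fin L → Set ℕ,
        Prob k s p (fun x => ¬ ∀ l, ∀ X : ℕ, X ≤ B * b ^ k →
          |corr (E l) (c + ∑ j, x j) X| ≤ (b : ℝ) ^ k / (k : ℝ) ^ U) ≤ 1 / (k : ℝ) ^ U := by
  classical
  obtain ⟨k₀, h0⟩ := Pool.Agent.Y885.rs_fine b B D (κ + 2) U hb hB η δ hη hδ Pool.Agent.H373R2.T7.muR Pool.Agent.Y885.fine_mu
  refine ⟨k₀ + B + b + 2, fun k hk J hJ s p hs hp c hc L hL E => ?_⟩
  have hk1 : (1 : ℝ) ≤ k := by exact_mod_cast (by omega : 1 ≤ k)
  have h1 := h0 k (by omega) J s p c ⟨hJ.lt, hJ.low, hJ.high, hJ.all⟩ hs hp hc L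
    (hL.trans (Nat.pow_le_pow_right (by omega) (by omega))) (fun _ => 1)
    (fun l n => if n ∈ E l then ((ArithmeticFunction.vonMangoldt n : ℝ) : ℂ) else 0) (fun _ => le_rfl)
    (fun l n hn hn2 => by
      rw [one_mul] at hn2
      have hkb : B * b ^ k ≤ k ^ (k + 1) := by
        calc B * b ^ k ≤ k * k ^ k := Nat.mul_le_mul (by omega) (Nat.pow_le_pow_left (by omega) _)
          _ = k ^ (k + 1) := by rw [pow_succ]; ring
      have g1 : ArithmeticFunction.vonMangoldt n ≤ (k : ℝ) ^ (κ + 2) := by
        refine ArithmeticFunction.vonMangoldt_le_log.trans ?_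
        have g2 : Real.log (n : ℝ) ≤ Real.log (((B * b ^ k : ℕ) : ℝ)) := by
          apply Real.log_le_log (by exact_mod_cast hn)
          exact_mod_cast hn2
        have g3 : Real.log (((B * b ^ k : ℕ) : ℝ)) ≤ k + k * b := by
          push_cast
          rw [Real.log_mul (by positivity) (by positivity), Real.log_pow]
          have g4 : Real.log (B : ℝ) ≤ B := (Real.log_le_sub_one_of_pos (by exact_mod_cast hB)).trans (by linarith)
          have g5 : Real.log (b : ℝ) ≤ b := (Real.log_le_sub_one_of_pos (by exact_mod_cast (by omega : 0 < b))).trans (by linarith)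
          have g6 : (B : ℝ) ≤ k := by exact_mod_cast (by omega : B ≤ k)
          have g7 : (k : ℝ) * Real.log b ≤ k * b := mul_le_mul_of_nonneg_left g5 (by linarith)
          linarith
        have g8 : (b : ℝ) + 1 ≤ k := by exact_mod_cast (by omega : b + 1 ≤ k)
        have g9 : (k : ℝ) ^ 2 ≤ (k : ℝ) ^ (κ + 2) := pow_le_pow_right₀ hk1 (by omega)
        nlinarith
      split_ifs
      · rw [Complex.norm_real, Real.norm_eq_abs, abs_of_nonneg ArithmeticFunction.vonMangoldt_nonneg]
        exact g1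
      · rw [norm_zero]
        positivity)
    (fun x => ¬ ∀ l, ∀ X : ℕ, X ≤ B * b ^ k →
          |corr (E l) (c + ∑ j, x j) X| ≤ (b : ℝ) ^ k / (k : ℝ) ^ U) (Classical.decPred _)
    (fun x hx h => hx fun l X hX => by
      have h2 := h l X (by rw [one_mul]; exact hX)
      refine le_trans (le_of_eq ?_) h2
      rw [← Real.norm_eq_abs, ← Complex.norm_real]
      congr 1
      unfold corr
      rw [sum_filter]
      push_cast
      apply sum_congr rfl
      intro n _
      split_ifs
      · rw [one_mul]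
        unfold Pool.Agent.H373R2.T7.exI Pool.Agent.H373R2.T7.muR
        split_ifs with h3
        · push_cast
          rfl
        · rw [Int.toNat_of_nonpos (by omega)]
          simp
      · simp)
  refine le_trans (le_of_eq ?_) h1
  unfold Prob
  apply sum_congr rfl
  intro x _
  split_ifs <;> rfl

end Pool.Agent.Results.MP_0bfb7f_nt.RandomSumShifts
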