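import Pool.Agent.Y841.ThinCorr

/-!
# The Möbius function along shifted primes, with the shift from a thin family

The bilinear inequality for families of nearly minimal additive energy, Davenport's bounds for the exponential
sums of the Möbius function and the moments of Weyl sums are from the starting files
(`Pool.Agent.TH823.Fam`, `Pool.Agent.H373R2.T7`).
From Mathlib: `Polynomial ℤ`: the polynomials with integer coefficients; `P.eval m`: the value at `m`.
-/

set_option autoImplicit false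

namespace Pool.Agent.Results.MP_0bfb7f_nt.ThinShifts

open Finset

/-- The Möbius function on the integers, `0` at the integers `m ≤ 0`, with complex values. -/
noncomputable def mob (m : ℤ) : ℂ := ((ArithmeticFunction.moebius m.toNat : ℤ) : ℂ)

/-- The additive energy of order `p` of the family `s 1, ..., s x`: the number of the solutions of
`s (v 1) + ... + s (v p) = s (w 1) + ... + s (w p)` with all `v i`, `w i` in `{1, ..., x}`. -/
def energy (p x : ℕ) (s : ℕ → ℤ) : ℕ :=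
  (((Fintype.piFinset fun _ : Fin p => Icc 1 x) ×ˢ (Fintype.piFinset fun _ : Fin p => Icc 1 x)).filter
    (fun q => ∑ i, s (q.1 i) = ∑ i, s (q.2 i))).card

open Classical in
/-- The number of the `m` in `{1, ..., x}` with the property `E`. -/
noncomputable def num (x : ℕ) (E : ℕ → Prop) : ℝ := (((Icc 1 x).filter E).card : ℝ)

/-- The shift `h` is good for the multiplier `α`, the forms `a i * n + b i` and the weight `θ`, with the bound
`N / log ^ U N`: for all lengths `X` the correlation `∑ n ≤ X, θ n * (∏ i, Λ (a i * n + b i)) * μ (α n + h)` is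
small. For `α = 1`, one form `n` and `θ = 1` the sum is `∑ n ≤ X, Λ n * μ (n + h)`. -/
def Good (B U N : ℕ) {r : ℕ} (α : ℕ) (a b : Fin r → ℕ) (θ : ℕ → ℂ) (h : ℤ) : Prop :=
  ∀ X : ℕ, α * X ≤ B * N →
    ‖∑ n ∈ Icc 1 X, θ n * (∏ i, (ArithmeticFunction.vonMangoldt (a i * n + b i) : ℂ)) *
      mob (((α * n : ℕ) : ℤ) + h)‖ ≤ (N : ℝ) / Real.log N ^ U

/-- Let `r`, `B`, `C` and `U` be fixed, let `N` be large, and let a multiplier `α ≥ 1`, linear forms `a i n + b i` for
`i < r` with non-negative coefficients `≤ N ^ B` and a function `θ : ℕ → ℂ` bounded by `1` be given.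

* Let `s 1, ..., s x` be an arbitrary family of integers in `[-B N, B N]` with an additive energy of some fixed
  order `p` of at most `log ^ C N` times the minimal possible size `x ^ (2 p) / N`. Then all the members `h = s m`
  of the family, with at most `x / log ^ U N` exceptions `m ≤ x`, satisfy
  `|∑ n ≤ X, θ n * (∏ i, Λ (a i * n + b i)) * μ (α n + h)| ≤ N / log ^ U N` for all `X ≤ B N / α`.
* In particular this holds for the members `h = c + P m`, `m ≤ x`, where `P` is a fixed nonconstant polynomial with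
  integer coefficients, of degree `d`, `N / log ^ C N ≤ x ^ d ≤ B N` and `|c| ≤ B N`. -/
theorem result (r B C U : ℕ) :
    (∀ p : ℕ, ∃ N₀ : ℕ, ∀ N : ℕ, N₀ ≤ N → ∀ (x : ℕ) (s : ℕ → ℤ), (∀ m ∈ Icc 1 x, |s m| ≤ B * N) →
      (energy p x s : ℝ) * N ≤ Real.log N ^ C * (x : ℝ) ^ (2 * p) →
      ∀ α : ℕ, 1 ≤ α → ∀ a b : Fin r → ℕ, (∀ i, a i ≤ N ^ B ∧ b i ≤ N ^ B) → ∀ θ : ℕ → ℂ, (∀ n, ‖θ n‖ ≤ 1) →
        num x (fun m => ¬ Good B U N α a b θ (s m)) ≤ x / Real.log N ^ U) ∧
    (∀ P : Polynomial ℤ, 1 ≤ P.natDegree → ∃ N₀ : ℕ, ∀ N : ℕ, N₀ ≤ N → ∀ x : ℕ, x ^ P.natDegree ≤ B * N →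
      (N : ℝ) ≤ Real.log N ^ C * (x : ℝ) ^ P.natDegree → ∀ c : ℤ, |c| ≤ B * N →
      ∀ α : ℕ, 1 ≤ α → ∀ a b : Fin r → ℕ, (∀ i, a i ≤ N ^ B ∧ b i ≤ N ^ B) → ∀ θ : ℕ → ℂ, (∀ n, ‖θ n‖ ≤ 1) →
        num x (fun m => ¬ Good B U N α a b θ (c + P.eval (m : ℤ))) ≤ x / Real.log N ^ U) := by
  classical
  have hmob : ∀ m : ℤ, Pool.Agent.H373R2.T7.exI Pool.Agent.H373R2.T7.muC m = mob m := by
    intro m
    unfold Pool.Agent.H373R2.T7.exI mob
    split_ifs with h
    · rfl
    · rw [Int.toNat_of_nonpos (by omega)]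
      simp
  have hone : ∀ N : ℕ, 3 ≤ N → ((1 : ℕ) : ℝ) ≤ Real.log N ^ 0 := by
    intro N _
    rw [pow_zero, Nat.cast_one]
  refine ⟨fun p => ?_, fun P hP => ?_⟩
  · obtain ⟨N₀, h0⟩ := Pool.Agent.Y841.TC.fam_lin Pool.Agent.H373R2.T7.muC Pool.Agent.H373R2.T7.muC_norm
      Pool.Agent.H373R2.T7.sup_muC r p B C 0 U
    refine ⟨N₀ + 3, fun N hN x s hs hE α hα a b hab θ hθ => ?_⟩
    refine @h0 N (by omega) x s hs hE 1 (hone N (by omega)) (fun _ => α) (fun _ => a) (fun _ => b) (fun _ => θ)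
      (fun _ => hα) (fun _ => hab) (fun _ => hθ) _ (fun _ => Classical.propDecidable _) ?_
    intro m _ hm
    unfold Good at hm
    push Not at hm
    obtain ⟨X, hX, h2⟩ := hm
    refine ⟨0, X, hX, ?_⟩
    simp only [hmob]
    exact h2
  · obtain ⟨N₀, h0⟩ := Pool.Agent.Y841.TC.fam_pol Pool.Agent.H373R2.T7.muC Pool.Agent.H373R2.T7.muC_norm
      Pool.Agent.H373R2.T7.sup_muC r B C 0 U P hP
    refine ⟨N₀ + 3, fun N hN x hx1 hx2 c hc α hα a b hab θ hθ => ?_⟩
    refine @h0 N (by omega) x hx1 hx2 c hc 1 (hone N (by omega)) (fun _ => α) (fun _ => a) (fun _ => b) (fun _ => θ)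
      (fun _ => hα) (fun _ => hab) (fun _ => hθ) _ (fun _ => Classical.propDecidable _) ?_
    intro m _ hm
    unfold Good at hm
    push Not at hm
    obtain ⟨X, hX, h2⟩ := hm
    refine ⟨0, X, hX, ?_⟩
    simp only [hmob]
    exact h2

end Pool.Agent.Results.MP_0bfb7f_nt.ThinShifts
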